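import Pool.Agent.H46.VIO.Stmts

/-!
# VIO, row PGJ: pigeonhole over the `J`-subsets
-/

set_option autoImplicit false

namespace Pool.VIO

open Finset

/-- the unit of a number prime to `M` -/
private noncomputable def pgjU (M : ℕ) (n : ℕ) : (ZMod M)ˣ :=
  if h : n.Coprime M then ZMod.unitOfCoprime n h else 1

private theorem pgjU_coe {M n : ℕ} (h : n.Coprime M) : ((pgjU M n : (ZMod M)ˣ) : ZMod M) = n := by
  unfold pgjU
  rw [dif_pos h, ZMod.coe_unitOfCoprime]

/-- **PGJ**: pigeonhole over the `J`-subsets of `F`. -/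
theorem pgj_thm : S_PGJ := by
  classical
  intro F J M u u' hM hcop hcard
  haveI : NeZero M := ⟨hM.ne'⟩
  let f : ℕ × ℕ → (ZMod M)ˣ := fun v => pgjU M (u v) / pgjU M (u' v)
  have hc : (univ : Finset (ZMod M)ˣ).card < (powersetCard J F).card := by
    rw [card_univ, ZMod.card_units_eq_totient, card_powersetCard]
    exact (Nat.totient_le M).trans_lt hcard
  obtain ⟨S, hS, S', hS', hne, heq⟩ :=
    Finset.exists_ne_map_eq_of_card_lt_of_maps_to hc
      (f := fun S : Finset (ℕ × ℕ) => ∏ v ∈ S, f v) (fun S _ => mem_univ _)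
  rw [mem_powersetCard] at hS hS'
  have hcA : (S \ S').card = (S' \ S).card := by
    have h1 := Finset.card_sdiff_add_card_inter S S'
    have h2 := Finset.card_sdiff_add_card_inter S' S
    rw [Finset.inter_comm] at h2
    omega
  have hAne : (S \ S').Nonempty := by
    rw [Finset.sdiff_nonempty]
    intro hsub
    exact hne (Finset.eq_of_subset_of_card_le hsub (by rw [hS.2, hS'.2]))
  have hprod : ∏ v ∈ S \ S', f v = ∏ v ∈ S' \ S, f v := by
    have h1 := Finset.prod_inter_mul_prod_diff S S' f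
    have h2 := Finset.prod_inter_mul_prod_diff S' S f
    rw [Finset.inter_comm] at h2
    have h3 : (∏ v ∈ S, f v) = ∏ v ∈ S', f v := heq
    rw [← h1, ← h2] at h3
    exact mul_left_cancel h3
  refine ⟨S \ S', S' \ S, Finset.sdiff_subset.trans hS.1, Finset.sdiff_subset.trans hS'.1,
    disjoint_sdiff_sdiff, hcA, hAne, ?_, ?_⟩
  · exact (Finset.card_le_card Finset.sdiff_subset).trans hS.2.le
  · have h1 : (∏ v ∈ S \ S', pgjU M (u v)) * ∏ v ∈ S' \ S, pgjU M (u' v) =
        (∏ v ∈ S' \ S, pgjU M (u v)) * ∏ v ∈ S \ S', pgjU M (u' v) := by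
      have h2 : (∏ v ∈ S \ S', pgjU M (u v)) / (∏ v ∈ S \ S', pgjU M (u' v)) =
          (∏ v ∈ S' \ S, pgjU M (u v)) / ∏ v ∈ S' \ S, pgjU M (u' v) := by
        rw [← Finset.prod_div_distrib, ← Finset.prod_div_distrib]
        exact hprod
      exact div_eq_div_iff_mul_eq_mul.1 h2
    have h3 := congrArg (fun z : (ZMod M)ˣ => (z : ZMod M)) h1
    simp only [Units.val_mul, Units.coe_prod] at h3
    have e1 : ∀ (g : ℕ × ℕ → ℕ) (A : Finset (ℕ × ℕ)), (∀ v ∈ A, (g v).Coprime M) →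
        ∏ v ∈ A, ((pgjU M (g v) : (ZMod M)ˣ) : ZMod M) = ∏ v ∈ A, ((g v : ℕ) : ZMod M) :=
      fun g A hA => Finset.prod_congr rfl fun v hv => pgjU_coe (hA v hv)
    have hSF : ∀ v ∈ S \ S', v ∈ F := fun v hv => hS.1 (Finset.mem_sdiff.1 hv).1
    have hSF' : ∀ v ∈ S' \ S, v ∈ F := fun v hv => hS'.1 (Finset.mem_sdiff.1 hv).1
    rw [e1 u _ fun v hv => (hcop v (hSF v hv)).1, e1 u' _ fun v hv => (hcop v (hSF' v hv)).2,
      e1 u _ fun v hv => (hcop v (hSF' v hv)).1, e1 u' _ fun v hv => (hcop v (hSF v hv)).2] at h3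
    rw [← ZMod.intCast_zmod_eq_zero_iff_dvd]
    push_cast
    rw [h3]
    ring

end Pool.VIO
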